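import Pool.Agent.helper9.HQ.Spec

/-!
# hq:MX (the maximum)
-/

set_option autoImplicit false

open scoped Classical

namespace Pool.Agent.helper9.HQ

open Finset Pool.Agent.helper65.HC

/-- the form in the variables `ξ`, `b` -/
noncomputable def MX_Ps {n : ℕ} (W : Fin n → Fin n → Prop) (ξ b : Fin n → ℝ) : ℝ :=
  (∑ i, ξ i * b i) ^ 2 + (1 / 2) * ∑ i, ∑ j, if W i j then (ξ j * b i + ξ i * b j) ^ 2 else 0

theorem MX_Phi {n : ℕ} (W : Fin n → Fin n → Prop) (ξ a b x : Fin n → ℝ)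
    (hx : ∀ i, x i = ξ i ^ 2) (hb : ∀ i, b i = ξ i * a i) :
    Phi W x a = MX_Ps W ξ b ∧ NN x a = ∑ i, b i ^ 2 := by
  constructor
  · unfold Phi MX_Ps
    congr 1
    · congr 1
      apply Finset.sum_congr rfl
      intro i _
      rw [hx, hb]; ring
    · congr 1
      apply Finset.sum_congr rfl
      intro i _
      apply Finset.sum_congr rfl
      intro j _
      by_cases h : W i j
      · rw [if_pos h, if_pos h, hx, hx, hb, hb]; ring
      · rw [if_neg h, if_neg h]
  · unfold NN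
    apply Finset.sum_congr rfl
    intro i _
    rw [hx, hb]; ring

theorem MX_smul {n : ℕ} (W : Fin n → Fin n → Prop) (ξ b : Fin n → ℝ) (t : ℝ) :
    MX_Ps W ξ (fun i => t * b i) = t ^ 2 * MX_Ps W ξ b := by
  unfold MX_Ps
  rw [mul_add, ← mul_pow, mul_left_comm (t ^ 2)]
  congr 1
  · congr 1
    rw [Finset.mul_sum]
    apply Finset.sum_congr rfl
    intro i _
    ring
  · congr 1
    rw [Finset.mul_sum]
    apply Finset.sum_congr rfl
    intro i _
    rw [Finset.mul_sum]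
    apply Finset.sum_congr rfl
    intro j _
    by_cases h : W i j
    · rw [if_pos h, if_pos h]; ring
    · rw [if_neg h, if_neg h, mul_zero]

theorem MX_cont {n : ℕ} (W : Fin n → Fin n → Prop) :
    Continuous (fun p : (Fin n → ℝ) × (Fin n → ℝ) => MX_Ps W p.1 p.2) := by
  unfold MX_Ps
  refine Continuous.add (by fun_prop) (Continuous.mul continuous_const ?_)
  refine continuous_finset_sum _ fun i _ => continuous_finset_sum _ fun j _ => ?_
  by_cases h : W i j
  · simp only [h, if_true]; fun_prop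
  · simp only [h, if_false]; exact continuous_const

/-- the domain -/
def MX_K {n : ℕ} (W : Fin n → Fin n → Prop) (al : ℝ) : Set ((Fin n → ℝ) × (Fin n → ℝ)) :=
  {p | (∀ i, 0 ≤ p.1 i) ∧ ∑ i, p.1 i ^ 2 = 1 ∧ ∑ i, p.2 i ^ 2 = 1 ∧
    ar W (fun i => p.1 i ^ 2) ≤ al}

theorem MX_ar_cont {n : ℕ} (W : Fin n → Fin n → Prop) :
    Continuous (fun p : (Fin n → ℝ) × (Fin n → ℝ) => ar W (fun i => p.1 i ^ 2)) := by
  unfold ar
  refine continuous_finset_sum _ fun i _ => continuous_finset_sum _ fun j _ => ?_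
  by_cases h : W i j
  · simp only [h, if_true]; fun_prop
  · simp only [h, if_false]; exact continuous_const

theorem MX_le_one {n : ℕ} (b : Fin n → ℝ) (hb : ∑ i, b i ^ 2 = 1) (i : Fin n) : ‖b i‖ ≤ 1 := by
  have h1 : b i ^ 2 ≤ 1 := by
    rw [← hb]
    exact Finset.single_le_sum (f := fun i => b i ^ 2) (fun j _ => sq_nonneg (b j))
      (Finset.mem_univ i)
  rw [Real.norm_eq_abs]
  exact abs_le_one_iff_mul_self_le_one.2 (by rw [← pow_two]; exact h1)

theorem MX_compact {n : ℕ} (W : Fin n → Fin n → Prop) (al : ℝ) : IsCompact (MX_K W al) := by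
  apply Metric.isCompact_of_isClosed_isBounded
  · have h1 : IsClosed {p : (Fin n → ℝ) × (Fin n → ℝ) | ∀ i, 0 ≤ p.1 i} := by
      rw [Set.setOf_forall]
      exact isClosed_iInter fun i => isClosed_le continuous_const (by fun_prop)
    have h2 : IsClosed {p : (Fin n → ℝ) × (Fin n → ℝ) | ∑ i, p.1 i ^ 2 = 1} :=
      isClosed_eq (by fun_prop) continuous_const
    have h3 : IsClosed {p : (Fin n → ℝ) × (Fin n → ℝ) | ∑ i, p.2 i ^ 2 = 1} :=
      isClosed_eq (by fun_prop) continuous_const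
    have h4 : IsClosed {p : (Fin n → ℝ) × (Fin n → ℝ) | ar W (fun i => p.1 i ^ 2) ≤ al} :=
      isClosed_le (MX_ar_cont W) continuous_const
    exact h1.inter (h2.inter (h3.inter h4))
  · refine (Metric.isBounded_closedBall (x := (0 : (Fin n → ℝ) × (Fin n → ℝ))) (r := 1)).subset ?_
    rintro ⟨ξ, b⟩ ⟨-, h2, h3, -⟩
    rw [mem_closedBall_zero_iff, Prod.norm_def]
    refine max_le ?_ ?_
    · exact (pi_norm_le_iff_of_nonneg zero_le_one).2 fun i => MX_le_one ξ h2 i
    · exact (pi_norm_le_iff_of_nonneg zero_le_one).2 fun i => MX_le_one b h3 i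

theorem MX_abs {n : ℕ} (W : Fin n → Fin n → Prop) (ξ b : Fin n → ℝ) (hξ : ∀ i, 0 ≤ ξ i) :
    MX_Ps W ξ b ≤ MX_Ps W ξ (fun i => |b i|) := by
  unfold MX_Ps
  refine add_le_add ?_ (mul_le_mul_of_nonneg_left ?_ (by norm_num))
  · rw [← sq_abs]
    refine pow_le_pow_left₀ (abs_nonneg _) ?_ 2
    refine (Finset.abs_sum_le_sum_abs _ _).trans (Finset.sum_le_sum fun i _ => ?_)
    rw [abs_mul, abs_of_nonneg (hξ i)]
  · refine Finset.sum_le_sum fun i _ => Finset.sum_le_sum fun j _ => ?_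
    by_cases h : W i j
    · rw [if_pos h, if_pos h, ← sq_abs]
      refine pow_le_pow_left₀ (abs_nonneg _) ?_ 2
      refine (abs_add_le _ _).trans ?_
      rw [abs_mul, abs_mul, abs_of_nonneg (hξ i), abs_of_nonneg (hξ j)]
    · rw [if_neg h, if_neg h]

theorem MX_upd {n : ℕ} (W : Fin n → Fin n → Prop) (ξ b : Fin n → ℝ) (i : Fin n) (hi : ξ i = 0)
    (hξ : ∑ j, ξ j ^ 2 = 1) :
    MX_Ps W ξ b ≤ MX_Ps W ξ (Function.update b i 0) + b i ^ 2 := by
  have h1 : ∑ j, ξ j * b j = ∑ j, ξ j * Function.update b i 0 j := by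
    apply Finset.sum_congr rfl
    intro j _
    by_cases hj : j = i
    · rw [hj, hi, zero_mul, zero_mul]
    · rw [Function.update_of_ne hj]
  have h2 : ∀ p q : Fin n, (if W p q then (ξ q * b p + ξ p * b q) ^ 2 else 0) ≤
      (if W p q then (ξ q * Function.update b i 0 p + ξ p * Function.update b i 0 q) ^ 2 else 0)
        + ((if p = i then ξ q ^ 2 * b i ^ 2 else 0) + (if q = i then ξ p ^ 2 * b i ^ 2 else 0)) := by
    intro p q
    have e1 : 0 ≤ (if p = i then ξ q ^ 2 * b i ^ 2 else 0) := by split_ifs <;> positivity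
    have e2 : 0 ≤ (if q = i then ξ p ^ 2 * b i ^ 2 else 0) := by split_ifs <;> positivity
    by_cases h : W p q
    · rw [if_pos h, if_pos h]
      by_cases hp : p = i
      · by_cases hq : q = i
        · rw [hp, hq, hi]
          simp
        · rw [if_pos hp, if_neg hq, hp, hi, Function.update_self]
          nlinarith
      · by_cases hq : q = i
        · rw [if_neg hp, if_pos hq, hq, hi, Function.update_self]
          nlinarith
        · rw [Function.update_of_ne hp, Function.update_of_ne hq]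
          linarith
    · rw [if_neg h, if_neg h]
      linarith
  have h3 : ∑ p, ∑ q, (if W p q then (ξ q * b p + ξ p * b q) ^ 2 else 0) ≤
      ∑ p, ∑ q, (if W p q then (ξ q * Function.update b i 0 p + ξ p * Function.update b i 0 q) ^ 2
        else 0) + 2 * b i ^ 2 := by
    have h4 : ∑ p : Fin n, ∑ q : Fin n, ((if p = i then ξ q ^ 2 * b i ^ 2 else 0)
        + (if q = i then ξ p ^ 2 * b i ^ 2 else 0)) = 2 * b i ^ 2 := by
      simp only [Finset.sum_add_distrib]
      have e1 : ∑ p : Fin n, ∑ q : Fin n, (if p = i then ξ q ^ 2 * b i ^ 2 else 0) = b i ^ 2 := by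
        rw [Finset.sum_comm]
        simp only [Finset.sum_ite_eq', Finset.mem_univ, if_true]
        rw [← Finset.sum_mul, hξ, one_mul]
      have e2 : ∑ p : Fin n, ∑ q : Fin n, (if q = i then ξ p ^ 2 * b i ^ 2 else 0) = b i ^ 2 := by
        simp only [Finset.sum_ite_eq', Finset.mem_univ, if_true]
        rw [← Finset.sum_mul, hξ, one_mul]
      rw [e1, e2]; ring
    rw [← h4, ← Finset.sum_add_distrib]
    refine Finset.sum_le_sum fun p _ => ?_
    rw [← Finset.sum_add_distrib]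
    exact Finset.sum_le_sum fun q _ => h2 p q
  unfold MX_Ps
  rw [h1]
  linarith

theorem MX : MX_stmt := by
  intro n W al _ hex
  obtain ⟨x₀, a₀, hx₀, har₀, hlt⟩ := hex
  have hpt : ∀ x : Fin n → ℝ, Spl x → (∀ i, 0 ≤ √(x i)) ∧ ∑ i, √(x i) ^ 2 = 1 ∧
      ∀ i, x i = √(x i) ^ 2 := by
    intro x hx
    refine ⟨fun i => Real.sqrt_nonneg _, ?_, fun i => (Real.sq_sqrt (hx.1 i)).symm⟩
    rw [← hx.2]
    exact Finset.sum_congr rfl fun i _ => Real.sq_sqrt (hx.1 i)
  have hne : (MX_K W al).Nonempty := by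
    obtain ⟨h1, h2, h3⟩ := hpt x₀ hx₀
    refine ⟨(fun i => √(x₀ i), fun i => √(x₀ i)), h1, h2, h2, ?_⟩
    have h4 : (fun i => √(x₀ i) ^ 2) = x₀ := funext fun i => (h3 i).symm
    show ar W (fun i => √(x₀ i) ^ 2) ≤ al
    rw [h4]
    exact har₀
  obtain ⟨⟨ξ, b₀⟩, hK, hmax⟩ := (MX_compact W al).exists_isMaxOn hne (MX_cont W).continuousOn
  obtain ⟨hξ0, hξ1, hb₀1, hξar⟩ := hK
  set l : ℝ := MX_Ps W ξ b₀ with hl
  have hle : ∀ ξ' b' : Fin n → ℝ, (∀ i, 0 ≤ ξ' i) → ∑ i, ξ' i ^ 2 = 1 →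
      ar W (fun i => ξ' i ^ 2) ≤ al → MX_Ps W ξ' b' ≤ l * ∑ i, b' i ^ 2 := by
    intro ξ' b' h1 h2 h3
    by_cases h4 : ∑ i, b' i ^ 2 = 0
    · have h5 : ∀ i, b' i = 0 := by
        intro i
        have := (Finset.sum_eq_zero_iff_of_nonneg (fun i _ => sq_nonneg (b' i))).1 h4 i
          (Finset.mem_univ i)
        exact pow_eq_zero_iff (two_ne_zero) |>.1 this
      have h6 : MX_Ps W ξ' b' = 0 := by
        unfold MX_Ps
        simp [h5]
      rw [h6, h4, mul_zero]
    · have hpos : 0 < ∑ i, b' i ^ 2 :=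
        lt_of_le_of_ne (Finset.sum_nonneg fun i _ => sq_nonneg _) (Ne.symm h4)
      set S : ℝ := ∑ i, b' i ^ 2 with hS
      have h5 : (ξ', fun i => (√S)⁻¹ * b' i) ∈ MX_K W al := by
        refine ⟨h1, h2, ?_, h3⟩
        show ∑ i, ((√S)⁻¹ * b' i) ^ 2 = 1
        simp only [mul_pow]
        rw [← Finset.mul_sum, ← hS, inv_pow, Real.sq_sqrt hpos.le, inv_mul_cancel₀ hpos.ne']
      have h6 := hmax h5
      have h7 : MX_Ps W ξ' (fun i => (√S)⁻¹ * b' i) ≤ l := h6
      rw [MX_smul, inv_pow, Real.sq_sqrt hpos.le, inv_mul_le_iff₀ hpos] at h7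
      linarith
  have hfin : ∀ x' a' : Fin n → ℝ, Spl x' → ar W x' ≤ al → Phi W x' a' ≤ l * NN x' a' := by
    intro x' a' hx' har'
    obtain ⟨h1, h2, h3⟩ := hpt x' hx'
    obtain ⟨h4, h5⟩ := MX_Phi W (fun i => √(x' i)) a' (fun i => √(x' i) * a' i) x' h3 (fun i => rfl)
    rw [h4, h5]
    refine hle _ _ h1 h2 ?_
    have h6 : (fun i => √(x' i) ^ 2) = x' := funext fun i => (h3 i).symm
    rw [h6]
    exact har'
  have hl1 : 1 < l := by
    have h1 := hfin x₀ a₀ hx₀ har₀
    have h2 : 0 ≤ NN x₀ a₀ := Finset.sum_nonneg fun i _ => mul_nonneg (hx₀.1 i) (sq_nonneg _)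
    by_contra h3
    push_neg at h3
    nlinarith
  -- the nonnegative maximiser
  set b : Fin n → ℝ := fun i => |b₀ i| with hbdef
  have hb1 : ∑ i, b i ^ 2 = 1 := by
    rw [← hb₀1]
    exact Finset.sum_congr rfl fun i _ => sq_abs (b₀ i)
  have hbl : MX_Ps W ξ b = l := by
    apply le_antisymm
    · have := hle ξ b hξ0 hξ1 hξar
      rwa [hb1, mul_one] at this
    · exact MX_abs W ξ b₀ hξ0
  have hbz : ∀ i, ξ i = 0 → b i = 0 := by
    intro i hi
    have h1 := MX_upd W ξ b i hi hξ1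
    have h2 := hle ξ (Function.update b i 0) hξ0 hξ1 hξar
    have h3 : ∑ j, Function.update b i 0 j ^ 2 = 1 - b i ^ 2 := by
      rw [← hb1, ← Finset.add_sum_erase _ _ (Finset.mem_univ i),
        ← Finset.add_sum_erase (Finset.univ) (fun j => b j ^ 2) (Finset.mem_univ i),
        Function.update_self]
      have h4 : ∑ j ∈ Finset.univ.erase i, Function.update b i 0 j ^ 2
          = ∑ j ∈ Finset.univ.erase i, b j ^ 2 := by
        apply Finset.sum_congr rfl
        intro j hj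
        rw [Function.update_of_ne (Finset.ne_of_mem_erase hj)]
      rw [h4]
      ring
    rw [h3] at h2
    rw [hbl] at h1
    have h5 : (l - 1) * b i ^ 2 ≤ 0 := by nlinarith
    have h6 : b i ^ 2 ≤ 0 := by
      by_contra h7
      push_neg at h7
      nlinarith [mul_pos (sub_pos.2 hl1) h7]
    exact pow_eq_zero_iff (two_ne_zero) |>.1 (le_antisymm h6 (sq_nonneg _))
  have hba : ∀ i, b i = ξ i * (b i / ξ i) := by
    intro i
    by_cases h : ξ i = 0
    · rw [hbz i h, h, zero_mul]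
    · rw [mul_div_cancel₀ _ h]
  obtain ⟨h4, h5⟩ := MX_Phi W ξ (fun i => b i / ξ i) b (fun i => ξ i ^ 2) (fun i => rfl) hba
  refine ⟨fun i => ξ i ^ 2, fun i => b i / ξ i, l, ⟨fun i => sq_nonneg _, hξ1⟩, hξar,
    fun i => div_nonneg (abs_nonneg _) (hξ0 i), ?_, ?_, hl1, hfin⟩
  · rw [h5, hb1]
  · rw [h4, hbl]

end Pool.Agent.helper9.HQ
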